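import Mathlib
import Pool.Agent.Lib.MP_e75782_lc.Final

open MvPolynomial Pool.Agent.Lib.MP_e75782_lc

namespace Pool.Agent.Results.MP_e75782_lc.DoublyExponential

/-- An algorithm which computes triangulations. The input consists of `s` polynomials in `k` variables
and a formula which describes a semi-algebraic subset of `ℝ^k`; if this set is closed and bounded (equivalently: compact), then
the output is a triangulation `(K, Φ)` of the set. The number of steps is at least the number
of simplices of the simplicial complex `K`, which has to be written down.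
(The algorithm may do anything for other inputs, and `Φ` may be any homeomorphism.) -/
structure TriangulationAlgorithm where
  out : ∀ (k s : ℕ) (P : Fin s → MvPolynomial (Fin k) ℝ) (φ : Formula s),
    IsCompact (semialgSet P φ) → Triangulation (semialgSet P φ)
  steps : ∀ (k s : ℕ) (_ : Fin s → MvPolynomial (Fin k) ℝ) (_ : Formula s), ℕ
  size_le : ∀ k s P φ h, (out k s P φ h).size ≤ steps k s P φ

end Pool.Agent.Results.MP_e75782_lc.DoublyExponential

open Pool.Agent.Results.MP_e75782_lc.DoublyExponential in
/-- (1) For every `m ≥ 1` there are `42 m + 25` polynomials of degree at most `3` in `18 m + 12` variables,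
with integer coefficients of absolute value at most `6`, and a compact semi-algebraic set described
by them, all of whose triangulations have at least `2 ^ (2 ^ m - 1)` simplices.
(2) No algorithm computing triangulations of compact semi-algebraic sets is singly exponential: for
every `c`, on some input consisting of `s` polynomials of degree at most `d` in `k` variables it needs
more than `(s d + 2) ^ ((k + 2) ^ c)` steps. -/
theorem Pool.Agent.Results.MP_e75782_lc.DoublyExponential.result :
    (∀ m : ℕ, 0 < m →
      ∃ (P : Fin (42 * m + 25) → MvPolynomial (Fin (18 * m + 12)) ℝ) (φ : Formula (42 * m + 25)),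
        (∀ i, (P i).totalDegree ≤ 3) ∧
        (∀ i μ, ∃ z : ℤ, |z| ≤ 6 ∧ (P i).coeff μ = z) ∧
        IsCompact (semialgSet P φ) ∧
        ∀ T : Triangulation (semialgSet P φ), 2 ^ (2 ^ m - 1) ≤ T.size) ∧
    (∀ (A : TriangulationAlgorithm) (c : ℕ),
      ∃ (k s d : ℕ) (P : Fin s → MvPolynomial (Fin k) ℝ) (φ : Formula s),
        (∀ i, (P i).totalDegree ≤ d) ∧ IsCompact (semialgSet P φ) ∧
        (s * d + 2) ^ ((k + 2) ^ c) < A.steps k s P φ) := by
  refine ⟨fun m hm => main hm, fun A c => ?_⟩
  obtain ⟨m, hm, hlt⟩ := exists_large c
  obtain ⟨P, φ, hdeg, -, hcomp, hT⟩ := main hm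
  exact ⟨18 * m + 12, 42 * m + 25, 3, P, φ, hdeg, hcomp,
    hlt.trans_le ((hT (A.out _ _ P φ hcomp)).trans (A.size_le _ _ P φ hcomp))⟩
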